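import Pool.Agent.Helper86.QA.St3

set_option autoImplicit false

open MeasureTheory Matrix Set Topology
open scoped ENNReal ComplexConjugate

namespace Pool.Agent.Helper60.QA

open Pool.Agent.Helper86.QA

private theorem Xm_inv (x : Pt) : (Xm x)⁻¹ = !![((1 / x.2 : ℝ) : ℂ), -(x.1 / (x.2 : ℂ));
      -(conj x.1 / (x.2 : ℂ)), (((‖x.1‖ ^ 2 + x.2 ^ 2) / x.2 : ℝ) : ℂ)] := by
  by_cases ht : x.2 = 0
  · have h1 : Xm x = 0 := by
      ext i j
      fin_cases i <;> fin_cases j <;> simp [Xm, ht]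
    rw [h1, Matrix.inv_zero]
    ext i j
    fin_cases i <;> fin_cases j <;> simp [ht]
  · apply Matrix.inv_eq_right_inv
    have ht' : (x.2 : ℂ) ≠ 0 := by exact_mod_cast ht
    have hz : x.1 * conj x.1 = ((‖x.1‖ ^ 2 : ℝ) : ℂ) := by
      rw [Complex.mul_conj, Complex.normSq_eq_norm_sq]
    have hz' : conj x.1 * x.1 = ((‖x.1‖ ^ 2 : ℝ) : ℂ) := by rw [mul_comm, hz]
    have e1 : (((‖x.1‖ ^ 2 + x.2 ^ 2) / x.2 : ℝ) : ℂ)
        = (((‖x.1‖ ^ 2 : ℝ) : ℂ) + (x.2 : ℂ) ^ 2) / (x.2 : ℂ) := by push_cast; ring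
    have e2 : ((1 / x.2 : ℝ) : ℂ) = 1 / (x.2 : ℂ) := by push_cast; ring
    ext i j
    fin_cases i <;> fin_cases j
    · simp only [Xm, Matrix.mul_apply, Fin.sum_univ_two, Fin.zero_eta, Fin.isValue,
        Matrix.of_apply, Matrix.cons_val', Matrix.cons_val_zero, Matrix.cons_val_one,
        Matrix.cons_val_fin_one, Matrix.one_apply_eq]
      rw [e1, e2, ← hz]
      field_simp
      ring
    · simp only [Xm, Matrix.mul_apply, Fin.sum_univ_two, Fin.zero_eta, Fin.isValue, Fin.mk_one,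
        Matrix.of_apply, Matrix.cons_val', Matrix.cons_val_zero, Matrix.cons_val_one,
        Matrix.cons_val_fin_one]
      rw [Matrix.one_apply_ne (by decide), e1]
      ring
    · simp only [Xm, Matrix.mul_apply, Fin.sum_univ_two, Fin.zero_eta, Fin.isValue, Fin.mk_one,
        Matrix.of_apply, Matrix.cons_val', Matrix.cons_val_zero, Matrix.cons_val_one,
        Matrix.cons_val_fin_one]
      rw [Matrix.one_apply_ne (by decide), e2]
      ring
    · simp only [Xm, Matrix.mul_apply, Fin.sum_univ_two, Fin.isValue, Fin.mk_one,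
        Matrix.of_apply, Matrix.cons_val', Matrix.cons_val_zero, Matrix.cons_val_one,
        Matrix.cons_val_fin_one, Matrix.one_apply_eq]
      rw [e1, e2, ← hz']
      field_simp
      ring

private theorem Xm_herm (x : Pt) : (Xm x)ᴴ = Xm x := by
  ext i j
  fin_cases i <;> fin_cases j <;>
    simp [Xm, Matrix.conjTranspose_apply, Complex.conj_ofReal]

private theorem Xm_det {x : Pt} (hx : x ∈ up) : (Xm x).det = 1 := by
  have ht : x.2 ≠ 0 := (ne_of_gt hx)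
  have ht' : (x.2 : ℂ) ≠ 0 := by exact_mod_cast ht
  have hz : x.1 * conj x.1 = ((‖x.1‖ ^ 2 : ℝ) : ℂ) := by
    rw [Complex.mul_conj, Complex.normSq_eq_norm_sq]
  rw [Matrix.det_fin_two]
  simp only [Xm, Matrix.of_apply, Matrix.cons_val', Matrix.cons_val_zero, Matrix.cons_val_one,
    Matrix.cons_val_fin_one]
  have e1 : (((‖x.1‖ ^ 2 + x.2 ^ 2) / x.2 : ℝ) : ℂ)
      = (((‖x.1‖ ^ 2 : ℝ) : ℂ) + (x.2 : ℂ) ^ 2) / (x.2 : ℂ) := by push_cast; ring
  have e2 : ((1 / x.2 : ℝ) : ℂ) = 1 / (x.2 : ℂ) := by push_cast; ring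
  rw [e1, e2, ← hz]
  field_simp
  ring

private theorem Xi_herm (x : Pt) : ((Xm x)⁻¹)ᴴ = (Xm x)⁻¹ := by
  rw [Matrix.conjTranspose_nonsing_inv, Xm_herm]

private theorem Dl_inv (hACT : StACT) (g : SL) {x0 x1 x2 x3 : Pt} (h0 : x0 ∈ up) (h1 : x1 ∈ up)
    (h2 : x2 ∈ up) (h3 : x3 ∈ up) :
    Dl (ga g x0) (ga g x1) (ga g x2) (ga g x3) = Dl x0 x1 x2 x3 := by
  unfold Dl
  rw [(hACT.1 g x0 h0).2.2, (hACT.1 g x1 h1).2.2, (hACT.1 g x2 h2).2.2, (hACT.1 g x3 h3).2.2]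
  congr 1
  set G : Mat := (g : Mat) with hG
  have hd : IsUnit G.det := by
    rw [hG, g.det_coe]
    exact isUnit_one
  have hd' : IsUnit Gᴴ.det := by
    rw [Matrix.det_conjTranspose]
    exact hd.star
  have e1 : G⁻¹ * G = 1 := Matrix.nonsing_inv_mul _ hd
  have e2 : Gᴴ * Gᴴ⁻¹ = 1 := Matrix.mul_nonsing_inv _ hd'
  rw [Matrix.mul_inv_rev, Matrix.mul_inv_rev, Matrix.mul_inv_rev, Matrix.mul_inv_rev]
  have e3 : G * Xm x0 * Gᴴ * (Gᴴ⁻¹ * ((Xm x1)⁻¹ * G⁻¹)) * (G * Xm x2 * Gᴴ) *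
      (Gᴴ⁻¹ * ((Xm x3)⁻¹ * G⁻¹))
      = G * (Xm x0 * (Xm x1)⁻¹ * Xm x2 * (Xm x3)⁻¹) * G⁻¹ := by
    have e4 : G * Xm x0 * Gᴴ * (Gᴴ⁻¹ * ((Xm x1)⁻¹ * G⁻¹)) * (G * Xm x2 * Gᴴ) *
        (Gᴴ⁻¹ * ((Xm x3)⁻¹ * G⁻¹))
        = G * Xm x0 * (Gᴴ * Gᴴ⁻¹) * (Xm x1)⁻¹ * (G⁻¹ * G) * Xm x2 * (Gᴴ * Gᴴ⁻¹) *
          (Xm x3)⁻¹ * G⁻¹ := by
      simp only [Matrix.mul_assoc]
    rw [e4, e1, e2]
    simp only [Matrix.mul_one, Matrix.mul_assoc]
  rw [e3, Matrix.trace_mul_comm, ← Matrix.mul_assoc, e1, Matrix.one_mul]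

/-- sum of the squares of the entries -/
private noncomputable def ss (M : Mat) : ℝ := ∑ i, ∑ j, ‖M i j‖ ^ 2

private theorem ss_nonneg (M : Mat) : 0 ≤ ss M := by
  unfold ss
  exact Finset.sum_nonneg (fun i _ => Finset.sum_nonneg (fun j _ => by positivity))

private theorem ss_mul (M N : Mat) : ss (M * N) ≤ ss M * ss N := by
  have h1 : ∀ i j, ‖(M * N) i j‖ ^ 2 ≤ (∑ k, ‖M i k‖ ^ 2) * (∑ k, ‖N k j‖ ^ 2) := by
    intro i j
    have h2 : ‖(M * N) i j‖ ≤ ∑ k, ‖M i k‖ * ‖N k j‖ := by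
      rw [Matrix.mul_apply]
      refine (norm_sum_le _ _).trans (le_of_eq ?_)
      exact Finset.sum_congr rfl (fun k _ => norm_mul _ _)
    exact (pow_le_pow_left₀ (norm_nonneg _) h2 2).trans
      (Finset.sum_mul_sq_le_sq_mul_sq _ _ _)
  calc ss (M * N) ≤ ∑ i, ∑ j, (∑ k, ‖M i k‖ ^ 2) * (∑ k, ‖N k j‖ ^ 2) :=
        Finset.sum_le_sum (fun i _ => Finset.sum_le_sum (fun j _ => h1 i j))
    _ = ss M * ss N := by
        unfold ss
        simp only [Fin.sum_univ_two]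
        ring

private theorem tr_sq (M N : Mat) : ‖(M * N).trace‖ ^ 2 ≤ ss M * ss N := by
  have h2 : ‖(M * N).trace‖ ≤ ∑ p : Fin 2 × Fin 2, ‖M p.1 p.2‖ * ‖N p.2 p.1‖ := by
    rw [Fintype.sum_prod_type]
    unfold Matrix.trace
    refine (norm_sum_le _ _).trans (Finset.sum_le_sum (fun i _ => ?_))
    rw [Matrix.diag_apply, Matrix.mul_apply]
    refine (norm_sum_le _ _).trans (le_of_eq ?_)
    exact Finset.sum_congr rfl (fun k _ => norm_mul _ _)
  refine (pow_le_pow_left₀ (norm_nonneg _) h2 2).trans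
    ((Finset.sum_mul_sq_le_sq_mul_sq _ _ _).trans (le_of_eq ?_))
  rw [Fintype.sum_prod_type, Fintype.sum_prod_type]
  unfold ss
  simp only [Fin.sum_univ_two]
  ring

private theorem ss_ball {y : Pt} (hy : y ∈ up) (h : ch oo y ≤ 2) :
    ss (Xm y) ≤ 14 ∧ ss ((Xm y)⁻¹) ≤ 14 := by
  have ht : 0 < y.2 := hy
  have h1 : ‖y.1‖ ^ 2 + 1 + y.2 ^ 2 ≤ 4 * y.2 := by
    unfold ch oo at h
    rw [div_le_iff₀ (by positivity)] at h
    simp only [zero_sub, norm_neg] at h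
    linarith
  have key : ((‖y.1‖ ^ 2 + y.2 ^ 2) / y.2) ^ 2 + (1 / y.2) ^ 2 + 2 * (‖y.1‖ / y.2) ^ 2 ≤ 14 := by
    have h2 : ((‖y.1‖ ^ 2 + y.2 ^ 2) / y.2) ^ 2 + (1 / y.2) ^ 2 + 2 * (‖y.1‖ / y.2) ^ 2
        = ((‖y.1‖ ^ 2 + 1 + y.2 ^ 2) / y.2) ^ 2 - 2 := by
      field_simp
      ring
    rw [h2]
    have h3 : (‖y.1‖ ^ 2 + 1 + y.2 ^ 2) / y.2 ≤ 4 := by
      rw [div_le_iff₀ ht]
      exact h1
    have h4 : 0 ≤ (‖y.1‖ ^ 2 + 1 + y.2 ^ 2) / y.2 := by positivity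
    nlinarith
  have n1 : ‖(((‖y.1‖ ^ 2 + y.2 ^ 2) / y.2 : ℝ) : ℂ)‖ ^ 2
      = ((‖y.1‖ ^ 2 + y.2 ^ 2) / y.2) ^ 2 := by
    rw [Complex.norm_real, Real.norm_eq_abs, sq_abs]
  have n2 : ‖((1 / y.2 : ℝ) : ℂ)‖ ^ 2 = (1 / y.2) ^ 2 := by
    rw [Complex.norm_real, Real.norm_eq_abs, sq_abs]
  have n3 : ‖y.1 / (y.2 : ℂ)‖ ^ 2 = (‖y.1‖ / y.2) ^ 2 := by
    rw [norm_div, Complex.norm_real, Real.norm_eq_abs, abs_of_pos ht]
  have n4 : ‖conj y.1 / (y.2 : ℂ)‖ ^ 2 = (‖y.1‖ / y.2) ^ 2 := by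
    rw [norm_div, Complex.norm_real, Real.norm_eq_abs, abs_of_pos ht, RCLike.norm_conj]
  constructor
  · unfold ss
    simp only [Xm, Fin.sum_univ_two, Matrix.of_apply, Matrix.cons_val', Matrix.cons_val_zero,
      Matrix.cons_val_one, Matrix.cons_val_fin_one]
    rw [n1, n2, n3, n4]
    linarith
  · rw [Xm_inv]
    unfold ss
    simp only [Fin.sum_univ_two, Matrix.of_apply, Matrix.cons_val', Matrix.cons_val_zero,
      Matrix.cons_val_one, Matrix.cons_val_fin_one, norm_neg]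
    rw [n1, n2, n3, n4]
    linarith

private theorem herm_im {M : Mat} (h : conj M.trace = M.trace) : M.trace.im = 0 :=
  Complex.conj_eq_iff_im.1 h

private theorem conj_trace (M : Mat) : conj M.trace = Mᴴ.trace :=
  (Matrix.trace_conjTranspose M).symm

private theorem mX (i j : Fin 2) : Measurable (fun x : Pt => Xm x i j) := by
  have hc : Measurable (fun x : Pt => conj x.1) :=
    Complex.continuous_conj.measurable.comp measurable_fst
  have hr : Measurable (fun x : Pt => (x.2 : ℂ)) :=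
    Complex.measurable_ofReal.comp measurable_snd
  have h1 : Measurable (fun x : Pt => (((‖x.1‖ ^ 2 + x.2 ^ 2) / x.2 : ℝ) : ℂ)) :=
    Complex.measurable_ofReal.comp (by fun_prop)
  have h2 : Measurable (fun x : Pt => ((1 / x.2 : ℝ) : ℂ)) :=
    Complex.measurable_ofReal.comp (by fun_prop)
  fin_cases i <;> fin_cases j
  · exact h1
  · exact measurable_fst.div hr
  · exact hc.div hr
  · exact h2

private theorem mXi (i j : Fin 2) : Measurable (fun x : Pt => (Xm x)⁻¹ i j) := by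
  have hc : Measurable (fun x : Pt => conj x.1) :=
    Complex.continuous_conj.measurable.comp measurable_fst
  have hr : Measurable (fun x : Pt => (x.2 : ℂ)) :=
    Complex.measurable_ofReal.comp measurable_snd
  have h1 : Measurable (fun x : Pt => (((‖x.1‖ ^ 2 + x.2 ^ 2) / x.2 : ℝ) : ℂ)) :=
    Complex.measurable_ofReal.comp (by fun_prop)
  have h2 : Measurable (fun x : Pt => ((1 / x.2 : ℝ) : ℂ)) :=
    Complex.measurable_ofReal.comp (by fun_prop)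
  simp only [Xm_inv]
  fin_cases i <;> fin_cases j
  · exact h2
  · exact (measurable_fst.div hr).neg
  · exact (hc.div hr).neg
  · exact h1

private theorem mDl : Measurable (fun p : Pt × Pt × Pt × Pt => Dl p.1 p.2.1 p.2.2.1 p.2.2.2) := by
  have a0 : ∀ i j, Measurable (fun p : Pt × Pt × Pt × Pt => Xm p.1 i j) := fun i j =>
    (mX i j).comp measurable_fst
  have a1 : ∀ i j, Measurable (fun p : Pt × Pt × Pt × Pt => (Xm p.2.1)⁻¹ i j) := fun i j =>
    (mXi i j).comp (measurable_fst.comp measurable_snd)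
  have a2 : ∀ i j, Measurable (fun p : Pt × Pt × Pt × Pt => Xm p.2.2.1 i j) := fun i j =>
    (mX i j).comp (measurable_fst.comp (measurable_snd.comp measurable_snd))
  have a3 : ∀ i j, Measurable (fun p : Pt × Pt × Pt × Pt => (Xm p.2.2.2)⁻¹ i j) := fun i j =>
    (mXi i j).comp (measurable_snd.comp (measurable_snd.comp measurable_snd))
  unfold Dl
  refine Complex.measurable_im.comp ?_
  simp only [Matrix.trace, Matrix.diag_apply, Matrix.mul_apply]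
  refine Finset.measurable_fun_sum _ (fun i _ => Finset.measurable_fun_sum _ (fun j _ => ?_))
  refine Measurable.mul (Finset.measurable_fun_sum _ (fun k _ => ?_)) (a3 j i)
  exact Measurable.mul (Finset.measurable_fun_sum _ (fun l _ => (a0 i l).mul (a1 l k))) (a2 k j)

private theorem mk_comp {k : Pt → Pt → ℝ} (hk : Measurable (fun p : Pt × Pt => k p.1 p.2))
    {α : Type} [MeasurableSpace α] {f g : α → Pt} (hf : Measurable f) (hg : Measurable g) :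
    Measurable (fun p => k (f p) (g p)) := hk.comp (hf.prodMk hg)

private theorem mKK (hk : Measurable (fun p : Pt × Pt => kk p.1 p.2)) :
    Measurable (fun p : Pt × Pt × Pt × Pt => KK p.1 p.2.1 p.2.2.1 p.2.2.2) := by
  have b0 : Measurable (fun p : Pt × Pt × Pt × Pt => p.1) := measurable_fst
  have b1 : Measurable (fun p : Pt × Pt × Pt × Pt => p.2.1) := measurable_fst.comp measurable_snd
  have b2 : Measurable (fun p : Pt × Pt × Pt × Pt => p.2.2.1) :=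
    measurable_fst.comp (measurable_snd.comp measurable_snd)
  have b3 : Measurable (fun p : Pt × Pt × Pt × Pt => p.2.2.2) :=
    measurable_snd.comp (measurable_snd.comp measurable_snd)
  exact ((mDl.mul (mk_comp hk b1 b0)).mul (mk_comp hk b1 b2)).mul (mk_comp hk b1 b3)

theorem hDLF (hACT : StACT) (hCHI : StCHI) : StDLF := by
  refine ⟨Xm_inv, ?_, ?_, ?_, ?_, mDl, ?_⟩
  · intro g x0 h0 x1 h1 x2 h2 x3 h3
    refine ⟨Dl_inv hACT g h0 h1 h2 h3, ?_⟩
    unfold KK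
    rw [Dl_inv hACT g h0 h1 h2 h3, (hCHI.2.1 g x1 h1 x0 h0).2, (hCHI.2.1 g x1 h1 x2 h2).2,
      (hCHI.2.1 g x1 h1 x3 h3).2]
  · intro x0 h0 x1 h1 x2 h2 x3 h3
    have hX : ∀ x : Pt, Xm (cj x) = (starRingEnd ℂ).mapMatrix (Xm x) := by
      intro x
      ext i j
      fin_cases i <;> fin_cases j <;> simp [Xm, cj, Complex.conj_ofReal]
    have hXi : ∀ x : Pt, (Xm (cj x))⁻¹ = (starRingEnd ℂ).mapMatrix ((Xm x)⁻¹) := by
      intro x
      rw [Xm_inv, Xm_inv]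
      ext i j
      fin_cases i <;> fin_cases j <;> simp [cj, Complex.conj_ofReal]
    constructor
    · unfold Dl
      rw [hX, hXi, hX, hXi, ← map_mul, ← map_mul, ← map_mul]
      have h5 : ∀ M : Mat, ((starRingEnd ℂ).mapMatrix M).trace = conj M.trace := by
        intro M
        simp [Matrix.trace, Matrix.diag_apply]
      rw [h5, Complex.conj_im]
    · have h5 : ch (cj x0) (cj x1) = ch x0 x1 := by
        unfold ch cj
        rw [← map_sub, RCLike.norm_conj]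
      unfold kk
      rw [h5]
  · intro x0 h0 x1 h1 x2 h2 x3 h3 c0 c2 c3
    set g := gx x1 h1 with hg
    have hoo : oo ∈ up := by
      change (0 : ℝ) < 1
      exact one_pos
    have hgo : ga g oo = x1 := by
      rw [hg, hACT.2.2.2.2.1 x1 h1 oo]
      unfold oo
      simp
    have hback : ∀ x ∈ up, ga g (ga g⁻¹ x) = x := by
      intro x hx
      rw [← hACT.2.1 g g⁻¹ x hx, mul_inv_cancel, hACT.2.2.1 x hx]
    have hup : ∀ x ∈ up, ga g⁻¹ x ∈ up := fun x hx => (hACT.1 g⁻¹ x hx).2.1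
    have hch : ∀ x ∈ up, ch x1 x ≤ 2 → ch oo (ga g⁻¹ x) ≤ 2 := by
      intro x hx hc
      rw [← (hCHI.2.1 g oo hoo _ (hup x hx)).1, hgo, hback x hx]
      exact hc
    have e1 : Dl x0 x1 x2 x3 = Dl (ga g⁻¹ x0) oo (ga g⁻¹ x2) (ga g⁻¹ x3) := by
      rw [← Dl_inv hACT g (hup x0 h0) hoo (hup x2 h2) (hup x3 h3), hgo, hback x0 h0,
        hback x2 h2, hback x3 h3]
    rw [e1]
    have hX1 : (Xm oo)⁻¹ = 1 := by
      rw [Xm_inv]
      ext i j
      fin_cases i <;> fin_cases j <;> simp [oo]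
    unfold Dl
    rw [hX1, Matrix.mul_one, Matrix.mul_assoc]
    obtain ⟨s0, _⟩ := ss_ball (hup x0 h0) (hch x0 h0 c0)
    obtain ⟨s2, _⟩ := ss_ball (hup x2 h2) (hch x2 h2 c2)
    obtain ⟨_, s3⟩ := ss_ball (hup x3 h3) (hch x3 h3 c3)
    have t1 := tr_sq (Xm (ga g⁻¹ x0)) (Xm (ga g⁻¹ x2) * (Xm (ga g⁻¹ x3))⁻¹)
    have t2 := ss_mul (Xm (ga g⁻¹ x2)) ((Xm (ga g⁻¹ x3))⁻¹)
    have t3 : ss (Xm (ga g⁻¹ x2)) * ss ((Xm (ga g⁻¹ x3))⁻¹) ≤ 14 * 14 :=
      mul_le_mul s2 s3 (ss_nonneg _) (by norm_num)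
    have t4 : ss (Xm (ga g⁻¹ x0)) * ss (Xm (ga g⁻¹ x2) * (Xm (ga g⁻¹ x3))⁻¹) ≤ 14 * (14 * 14) :=
      mul_le_mul s0 (t2.trans t3) (ss_nonneg _) (by norm_num)
    have t5 := Complex.abs_im_le_norm
      (Xm (ga g⁻¹ x0) * (Xm (ga g⁻¹ x2) * (Xm (ga g⁻¹ x3))⁻¹)).trace
    refine t5.trans ?_
    refine abs_le_of_sq_le_sq' ?_ (by norm_num) |>.2
    exact (t1.trans t4).trans (by norm_num)
  · intro x0 h0 x1 h1 x2 h2 x3 h3
    have hu : IsUnit (Xm x1).det := by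
      rw [Xm_det h1]
      exact isUnit_one
    have hreal : ∀ a b : Pt, (Xm a * (Xm b)⁻¹).trace.im = 0 := by
      intro a b
      apply herm_im
      rw [conj_trace, Matrix.conjTranspose_mul, Xm_herm, Xi_herm, Matrix.trace_mul_comm]
    refine ⟨?_, ?_, ?_⟩
    · unfold Dl
      rw [Matrix.mul_nonsing_inv _ hu, Matrix.one_mul]
      exact hreal _ _
    · unfold Dl
      rw [Matrix.mul_assoc (Xm x0), Matrix.nonsing_inv_mul _ hu, Matrix.mul_one]
      exact hreal _ _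
    · unfold Dl
      apply herm_im
      rw [conj_trace, Matrix.conjTranspose_mul, Matrix.conjTranspose_mul,
        Matrix.conjTranspose_mul, Xm_herm, Xi_herm, Xm_herm, Matrix.trace_mul_comm,
        ← Matrix.mul_assoc (Xm x2), Matrix.mul_assoc (Xm x2 * (Xm x1)⁻¹),
        Matrix.trace_mul_comm, ← Matrix.mul_assoc]
  · exact mKK hCHI.2.2.2.2.2

end Pool.Agent.Helper60.QA
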