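import Pool.Agent.Helper86.QA.St2

set_option autoImplicit false

open MeasureTheory Matrix Set Topology
open scoped ENNReal ComplexConjugate

namespace Pool.Agent.Helper60.QA

open Pool.Agent.Helper86.QA
open Pool.Agent.Helper35.PM (hs)

private theorem hs_pos (g : SL) : 0 < hs (g : Mat) := by
  have h0 : 0 ≤ hs (g : Mat) := by
    unfold hs
    exact Finset.sum_nonneg (fun i _ => Finset.sum_nonneg (fun j _ => by positivity))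
  rcases h0.lt_or_eq with h | h
  · exact h
  · exfalso
    have h1 : ∀ i j, g i j = 0 := by
      intro i j
      have h2 : ‖g i j‖ ^ 2 ≤ hs (g : Mat) := by
        unfold hs
        refine le_trans ?_ (Finset.single_le_sum (f := fun i => ∑ j, ‖(g : Mat) i j‖ ^ 2)
          (fun i _ => Finset.sum_nonneg (fun j _ => by positivity)) (Finset.mem_univ i))
        exact Finset.single_le_sum (f := fun j => ‖(g : Mat) i j‖ ^ 2)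
          (fun j _ => by positivity) (Finset.mem_univ j)
      rw [← h] at h2
      have h3 : ‖g i j‖ = 0 := by nlinarith [norm_nonneg (g i j)]
      exact norm_eq_zero.1 h3
    have h4 := g.det_coe
    rw [Matrix.det_fin_two] at h4
    have e1 : (g : Mat) 0 0 = 0 := h1 0 0
    have e2 : (g : Mat) 0 1 = 0 := h1 0 1
    rw [e1, e2] at h4
    simp at h4

private theorem pp_meas (ξ : ℂ) : Measurable (fun x : Pt => pp x ξ) := by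
  unfold pp
  fun_prop

private theorem bnd (z ξ q p : ℂ) (t : ℝ) (ht : 0 < t) (hp : p ≠ 0) (hq : ξ = q / p) :
    t / (‖z - ξ‖ ^ 2 + t ^ 2) * (1 / ‖p‖) ^ 2 ≤
      t * (2 + (1 + 2 * ‖z‖ ^ 2) / t ^ 2) / (‖p‖ ^ 2 + ‖q‖ ^ 2) := by
  have hp' : 0 < ‖p‖ := norm_pos_iff.2 hp
  have h1 : ‖z - ξ‖ * ‖p‖ = ‖p * z - q‖ := by
    rw [← norm_mul]
    congr 1
    rw [hq]
    field_simp
  have h2 : t / (‖z - ξ‖ ^ 2 + t ^ 2) * (1 / ‖p‖) ^ 2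
      = t / (‖p * z - q‖ ^ 2 + t ^ 2 * ‖p‖ ^ 2) := by
    rw [← h1]
    have h3 : ‖z - ξ‖ ^ 2 + t ^ 2 ≠ 0 := by positivity
    have h4 : (‖z - ξ‖ * ‖p‖) ^ 2 + t ^ 2 * ‖p‖ ^ 2 ≠ 0 := by positivity
    field_simp
  rw [h2]
  have h5 : ‖q‖ ≤ ‖p * z - q‖ + ‖p‖ * ‖z‖ := by
    have : q = p * z - (p * z - q) := by ring
    calc ‖q‖ = ‖p * z - (p * z - q)‖ := by rw [← this]
      _ ≤ ‖p * z‖ + ‖p * z - q‖ := norm_sub_le _ _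
      _ = ‖p * z - q‖ + ‖p‖ * ‖z‖ := by rw [norm_mul, add_comm]
  have h6 : ‖q‖ ^ 2 ≤ 2 * ‖p * z - q‖ ^ 2 + 2 * (‖p‖ ^ 2 * ‖z‖ ^ 2) := by
    have h7 : ‖q‖ ^ 2 ≤ (‖p * z - q‖ + ‖p‖ * ‖z‖) ^ 2 :=
      pow_le_pow_left₀ (norm_nonneg _) h5 2
    nlinarith [sq_nonneg (‖p * z - q‖ - ‖p‖ * ‖z‖)]
  rw [div_le_div_iff₀ (by positivity) (by positivity)]
  have h8 : ‖p‖ ^ 2 + ‖q‖ ^ 2 ≤ (2 + (1 + 2 * ‖z‖ ^ 2) / t ^ 2) *
      (‖p * z - q‖ ^ 2 + t ^ 2 * ‖p‖ ^ 2) := by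
    have e : (2 + (1 + 2 * ‖z‖ ^ 2) / t ^ 2) * (‖p * z - q‖ ^ 2 + t ^ 2 * ‖p‖ ^ 2)
        = 2 * ‖p * z - q‖ ^ 2 + (1 + 2 * ‖z‖ ^ 2) * ‖p‖ ^ 2 + 2 * t ^ 2 * ‖p‖ ^ 2
          + (1 + 2 * ‖z‖ ^ 2) / t ^ 2 * ‖p * z - q‖ ^ 2 := by
      field_simp
      ring
    rw [e]
    have e2 : 0 ≤ 2 * t ^ 2 * ‖p‖ ^ 2 := by positivity
    have e3 : 0 ≤ (1 + 2 * ‖z‖ ^ 2) / t ^ 2 * ‖p * z - q‖ ^ 2 := by positivity
    nlinarith
  calc t * (‖p‖ ^ 2 + ‖q‖ ^ 2)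
      ≤ t * ((2 + (1 + 2 * ‖z‖ ^ 2) / t ^ 2) * (‖p * z - q‖ ^ 2 + t ^ 2 * ‖p‖ ^ 2)) :=
        mul_le_mul_of_nonneg_left h8 ht.le
    _ = t * (2 + (1 + 2 * ‖z‖ ^ 2) / t ^ 2) * (‖p * z - q‖ ^ 2 + t ^ 2 * ‖p‖ ^ 2) := by ring

theorem hEIS (hACT : StACT) (_ : StCHI) (hALP : StALP) (hPOI : StPOI) (hCHV : StCHV)
    (hPD1 : StPD1) (hACU : StACU) : StEIS := by
  intro Γ _ ρ A B hKD s hs0 hsum
  obtain ⟨hcount, _⟩ := hACU Γ ρ A B hKD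
  obtain ⟨ξ₀, hξ₀⟩ := hKD.neA
  obtain ⟨c, hc, hcb⟩ := hPD1 Γ ρ A B hKD {ξ₀} isCompact_singleton
    (by
      rintro _ rfl
      exact Or.inl hξ₀)
  have hup : ∀ (γ : Γ), ∀ x ∈ up, ga (ρ γ) x ∈ up := fun γ x hx => (hACT.1 (ρ γ) x hx).2.1
  have hppos : ∀ (γ : Γ), ∀ x ∈ up, 0 < pp (au ρ γ x) ξ₀ := fun γ x hx =>
    (hPOI.2.1 ξ₀ _ (hup γ x hx)).2
  -- the bound of the terms
  have hterm : ∀ x ∈ up, ∀ γ : Γ, pp (au ρ γ x) ξ₀ ≤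
      x.2 * (2 + (1 + 2 * ‖x.1‖ ^ 2) / x.2 ^ 2) / c * (hs (ρ γ⁻¹ : Mat))⁻¹ := by
    intro x hx γ
    have hx2 : 0 < x.2 := hx
    obtain ⟨hp, hη⟩ := hKD.mpA γ⁻¹ ξ₀ hξ₀
    set p := ρ γ⁻¹ 1 0 * ξ₀ + ρ γ⁻¹ 1 1 with hpdef
    set q := ρ γ⁻¹ 0 0 * ξ₀ + ρ γ⁻¹ 0 1 with hqdef
    obtain ⟨h1, h2⟩ := hCHV.2.1 (ρ γ) (ρ γ⁻¹) ξ₀ hp
    have h3 : ρ γ * ρ γ⁻¹ = 1 := by rw [← map_mul, mul_inv_cancel, map_one]
    rw [h3, hCHV.2.2.2.1] at h1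
    rw [h3] at h2
    have h4 : (1 : SL) 1 0 * ξ₀ + (1 : SL) 1 1 = 1 := by simp
    rw [h4] at h2
    have h5 : ρ γ 1 0 * mb (ρ γ⁻¹) ξ₀ + ρ γ 1 1 = 1 / p := by
      rw [eq_div_iff hp]
      exact h2.symm
    have h6 : ρ γ 1 0 * mb (ρ γ⁻¹) ξ₀ + ρ γ 1 1 ≠ 0 := by
      rw [h5]
      exact one_div_ne_zero hp
    have h7 := hPOI.1 (ρ γ) x (mb (ρ γ⁻¹) ξ₀) hx h6
    rw [← h1, h5] at h7
    have h8 : pp (au ρ γ x) ξ₀ = x.2 / (‖x.1 - mb (ρ γ⁻¹) ξ₀‖ ^ 2 + x.2 ^ 2) * (1 / ‖p‖) ^ 2 := by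
      have : pp (au ρ γ x) ξ₀ = pp (ga (ρ γ) x) ξ₀ := rfl
      rw [this, h7, norm_div, norm_one]
      rfl
    rw [h8]
    refine le_trans (bnd x.1 (mb (ρ γ⁻¹) ξ₀) q p x.2 hx2 hp rfl) ?_
    have h9 := hcb γ⁻¹ ξ₀ rfl
    have h10 : 0 < hs (ρ γ⁻¹ : Mat) := hs_pos _
    have h11 : x.2 * (2 + (1 + 2 * ‖x.1‖ ^ 2) / x.2 ^ 2) / c * (hs (ρ γ⁻¹ : Mat))⁻¹
        = x.2 * (2 + (1 + 2 * ‖x.1‖ ^ 2) / x.2 ^ 2) / (c * hs (ρ γ⁻¹ : Mat)) := by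
      rw [← div_eq_mul_inv, div_div]
    rw [h11]
    exact div_le_div_of_nonneg_left (by positivity) (by positivity) h9
  refine ⟨fun x => ∑' γ : Γ, ENNReal.ofReal (pp (au ρ γ x) ξ₀ ^ s), ?_, ?_, ?_, ?_⟩
  · refine Measurable.tsum (fun γ => ?_)
    have h1 : Measurable (ga (ρ γ)) := (hACT.2.2.2.1 (ρ γ)).1
    exact ENNReal.measurable_ofReal.comp (((pp_meas ξ₀).comp h1).pow_const s)
  · intro x hx
    constructor
    · refine lt_of_lt_of_le ?_ (ENNReal.le_tsum (1 : Γ))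
      rw [ENNReal.ofReal_pos]
      exact Real.rpow_pos_of_pos (hppos 1 x hx) s
    · have hx2 : 0 < x.2 := hx
      set M := x.2 * (2 + (1 + 2 * ‖x.1‖ ^ 2) / x.2 ^ 2) / c with hM
      have hM0 : 0 ≤ M := by positivity
      have hsum2 : Summable (fun γ : Γ => M ^ s * hs (ρ γ⁻¹ : Mat) ^ (-s)) := by
        refine Summable.mul_left _ ?_
        exact ((Equiv.inv Γ).summable_iff (f := fun γ : Γ => hs (ρ γ : Mat) ^ (-s))).2 hsum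
      refine lt_of_le_of_lt (ENNReal.tsum_le_tsum (fun γ => ?_)) hsum2.tsum_ofReal_lt_top
      apply ENNReal.ofReal_le_ofReal
      have h10 : 0 < hs (ρ γ⁻¹ : Mat) := hs_pos _
      calc pp (au ρ γ x) ξ₀ ^ s ≤ (M * (hs (ρ γ⁻¹ : Mat))⁻¹) ^ s :=
            Real.rpow_le_rpow (hppos γ x hx).le (hterm x hx γ) hs0
        _ = M ^ s * hs (ρ γ⁻¹ : Mat) ^ (-s) := by
            rw [Real.mul_rpow hM0 (inv_nonneg.2 h10.le), Real.inv_rpow h10.le,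
              Real.rpow_neg h10.le]
  · intro γ' x hx
    have h1 : ∀ γ : Γ, au ρ γ (au ρ γ' x) = au ρ (γ * γ') x := by
      intro γ
      unfold au
      rw [map_mul, hACT.2.1 _ _ x hx]
    simp only [h1]
    exact (Equiv.mulRight γ').tsum_eq (fun γ => ENNReal.ofReal (pp (au ρ γ x) ξ₀ ^ s))
  · intro x hx
    have key : ∀ γ : Γ, ∀ y ∈ up, pp (au ρ γ y) ξ₀ = (ga (gi ξ₀ * ρ γ) y).2 := by
      intro γ y hy
      rw [hACT.2.1 _ _ y hy, (hPOI.2.1 ξ₀ _ (hup γ y hy)).1]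
      rfl
    have hmeas : ∀ γ : Γ, Measurable (fun y : Pt => ENNReal.ofReal (pp (au ρ γ y) ξ₀ ^ s)) := by
      intro γ
      have h1 : Measurable (ga (ρ γ)) := (hACT.2.2.2.1 (ρ γ)).1
      exact ENNReal.measurable_ofReal.comp (((pp_meas ξ₀).comp h1).pow_const s)
    have hkm : Measurable (fun y : Pt => kk x y) := by
      unfold kk ch
      refine Measurable.ite ?_ measurable_const measurable_const
      exact measurableSet_le (by fun_prop) measurable_const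
    simp only [← ENNReal.tsum_mul_left]
    have hm2 : ∀ γ : Γ, AEMeasurable
        (fun y : Pt => ENNReal.ofReal (kk x y) * ENNReal.ofReal (pp (au ρ γ y) ξ₀ ^ s)) vol :=
      fun γ => (hkm.ennreal_ofReal.mul (hmeas γ)).aemeasurable
    rw [lintegral_tsum hm2]
    refine tsum_congr (fun γ => ?_)
    have h1 : ∫⁻ y, ENNReal.ofReal (kk x y) * ENNReal.ofReal (pp (au ρ γ y) ξ₀ ^ s) ∂vol
        = ∫⁻ y, ENNReal.ofReal (kk x y * (ga (gi ξ₀ * ρ γ) y).2 ^ s) ∂vol := by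
      refine lintegral_congr_ae ?_
      filter_upwards [ae_up] with y hy
      rw [← ENNReal.ofReal_mul, key γ y hy]
      unfold kk
      split_ifs <;> norm_num
    rw [h1, hALP.2.1 s _ x hx, key γ x hx, ENNReal.ofReal_mul (hALP.1 s).1]

end Pool.Agent.Helper60.QA
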